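import Pool.Agent.helper96.DP.SpecF

/-!
# EXR: iterated extension of arms (project dp)
-/

namespace DP

open MeasureTheory

theorem EXR_nonneg (ρ : V → ℝ) (j : ℕ) (x : V) (m n : ℕ) : 0 ≤ qa ρ j x m n :=
  measureReal_nonneg

theorem EXR (hEXT : EXT_stmt) : EXR_stmt := by
  obtain ⟨c₂, hc₂, i₁, hext⟩ := hEXT
  set C : ℝ := max 1 (1 / c₂) with hC
  have hC1 : 1 ≤ C := le_max_left _ _
  have hC2 : 1 / c₂ ≤ C := le_max_right _ _
  have hC0 : 0 ≤ C := zero_le_one.trans hC1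
  have key : ∀ X Y : ℝ, 0 ≤ Y → c₂ * X ≤ Y → X ≤ C * Y := by
    intro X Y hY h
    have h1 : X ≤ (1 / c₂) * Y := by
      rw [one_div, ← div_eq_inv_mul, le_div_iff₀ hc₂]
      linarith
    exact h1.trans (mul_le_mul_of_nonneg_right hC2 hY)
  refine ⟨C, hC1, i₁, ?_⟩
  intro j ρ x a b r hj hρ hx ha hab
  -- outwards
  have hout : ∀ b : ℕ, a < b → ∀ r : ℕ,
      qa ρ j x (2 ^ a) (2 ^ b) ≤ C ^ r * qa ρ j x (2 ^ a) (2 ^ (b + r)) := by
    intro b hab r
    induction r with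
    | zero => simp
    | succ r ih =>
      have h1 := key _ _ (EXR_nonneg ρ j x (2 ^ a) (2 ^ (b + r + 1)))
        (hext j ρ x a (b + r) hj hρ hx ha (by omega)).1
      calc qa ρ j x (2 ^ a) (2 ^ b) ≤ C ^ r * qa ρ j x (2 ^ a) (2 ^ (b + r)) := ih
        _ ≤ C ^ r * (C * qa ρ j x (2 ^ a) (2 ^ (b + r + 1))) :=
          mul_le_mul_of_nonneg_left h1 (pow_nonneg hC0 r)
        _ = C ^ (r + 1) * qa ρ j x (2 ^ a) (2 ^ (b + (r + 1))) := by
          have h5 : b + r + 1 = b + (r + 1) := by omega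
          have h6 : C ^ (r + 1) = C ^ r * C := pow_succ C r
          rw [h5, h6, mul_assoc]
  -- inwards
  have hin : ∀ r b' : ℕ, a + r < b' →
      qa ρ j x (2 ^ (a + r)) (2 ^ b') ≤ C ^ r * qa ρ j x (2 ^ a) (2 ^ b') := by
    intro r
    induction r with
    | zero => intro b' _; simp
    | succ r ih =>
      intro b' hb'
      have h0 := (hext j ρ x (a + r + 1) b' hj hρ hx (by omega) (by omega)).2.1 (by omega)
      rw [Nat.add_sub_cancel] at h0
      have h1 := key _ _ (EXR_nonneg ρ j x (2 ^ (a + r)) (2 ^ b')) h0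
      calc qa ρ j x (2 ^ (a + (r + 1))) (2 ^ b')
          ≤ C * qa ρ j x (2 ^ (a + r)) (2 ^ b') := h1
        _ ≤ C * (C ^ r * qa ρ j x (2 ^ a) (2 ^ b')) :=
          mul_le_mul_of_nonneg_left (ih b' (by omega)) hC0
        _ = C ^ (r + 1) * qa ρ j x (2 ^ a) (2 ^ b') := by
          rw [pow_succ]; ring
  refine ⟨hout b hab r, hin r (b + r) (by omega), ?_⟩
  obtain ⟨s, rfl⟩ : ∃ s, b = a + 1 + s := ⟨b - (a + 1), by omega⟩
  have h2 := (hext j ρ x a (a + 1) hj hρ hx ha (by omega)).2.2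
  have h3 := hout (a + 1) (by omega) s
  have h4 : 0 < C ^ s * qa ρ j x (2 ^ a) (2 ^ (a + 1 + s)) :=
    lt_of_lt_of_le hc₂ (h2.trans h3)
  exact pos_of_mul_pos_right h4 (pow_nonneg hC0 s)

end DP
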