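import Pool.Agent.helper95.DP.SpecH

/-!
# HMX: completion of the clocks of the edges by independent clocks (project dp)
-/

namespace DP

open MeasureTheory

open Classical in
/-- The mixing map. -/
noncomputable def HMX_map (p : (DynPerc.Edge → Path) × (V → Path)) (v : V) : Path :=
  if h : ∃ e, site e = v then p.1 h.choose else p.2 v

theorem HMX_map_site (hinj : Function.Injective site)
    (p : (DynPerc.Edge → Path) × (V → Path)) (e : DynPerc.Edge) :
    HMX_map p (site e) = p.1 e := by
  have h : ∃ e', site e' = site e := ⟨e, rfl⟩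
  unfold HMX_map
  rw [dif_pos h]
  have h2 : h.choose = e := hinj h.choose_spec
  rw [h2]

theorem HMX_map_neg (p : (DynPerc.Edge → Path) × (V → Path)) (v : V)
    (h : ¬ ∃ e, site e = v) : HMX_map p v = p.2 v := by
  unfold HMX_map
  rw [dif_neg h]

theorem HMX_measurable (hinj : Function.Injective site) : Measurable HMX_map := by
  rw [measurable_pi_iff]
  intro v
  by_cases h : ∃ e, site e = v
  · obtain ⟨e, rfl⟩ := h
    simp only [HMX_map_site hinj]
    exact (measurable_pi_apply e).comp measurable_fst
  · simp only [HMX_map_neg _ v h]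
    exact (measurable_pi_apply v).comp measurable_snd

theorem HMX (hSI : HSI_stmt) : HMX_stmt := by
  classical
  have hinj : Function.Injective site := hSI.1
  change ((Measure.infinitePi fun _ : DynPerc.Edge => nu).prod PV).map HMX_map = PV
  unfold PV
  refine Measure.eq_infinitePi (fun _ : V => nu) fun s t ht => ?_
  rw [Measure.map_apply (HMX_measurable hinj)
    (MeasurableSet.pi s.countable_toSet fun i _ => ht i)]
  -- the finite set of edges
  set S : Finset V := s.filter (fun v => ∃ e, site e = v) with hS
  set T : Finset V := s.filter (fun v => ¬ ∃ e, site e = v) with hT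
  set E : Finset DynPerc.Edge := S.preimage site (hinj.injOn) with hE
  have h1 : HMX_map ⁻¹' (Set.pi (s : Set V) t) =
      (Set.pi (E : Set DynPerc.Edge) fun e => t (site e)) ×ˢ (Set.pi (T : Set V) t) := by
    ext p
    simp only [Set.mem_preimage, Set.mem_pi, Set.mem_prod, Finset.mem_coe]
    constructor
    · intro h
      refine ⟨fun e he => ?_, fun v hv => ?_⟩
      · have he' : site e ∈ S := Finset.mem_preimage.1 he
        have h2 := h (site e) (Finset.mem_filter.1 he').1
        rwa [HMX_map_site hinj] at h2
      · have h3 := Finset.mem_filter.1 hv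
        have h2 := h v h3.1
        rwa [HMX_map_neg _ v h3.2] at h2
    · rintro ⟨h2, h3⟩ v hv
      by_cases h4 : ∃ e, site e = v
      · obtain ⟨e, rfl⟩ := h4
        rw [HMX_map_site hinj]
        exact h2 e (Finset.mem_preimage.2 (Finset.mem_filter.2 ⟨hv, ⟨e, rfl⟩⟩))
      · rw [HMX_map_neg _ v h4]
        exact h3 v (Finset.mem_filter.2 ⟨hv, h4⟩)
  rw [h1, Measure.prod_prod, Measure.infinitePi_pi _ (fun i _ => ht (site i)),
    Measure.infinitePi_pi _ (fun i _ => ht i)]
  have h5 : ∏ e ∈ E, nu (t (site e)) = ∏ v ∈ S, nu (t v) := by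
    rw [← Finset.prod_image (s := E) (g := site) (f := fun v => nu (t v))
      (fun a _ b _ hab => hinj hab)]
    refine Finset.prod_congr ?_ fun _ _ => rfl
    ext v
    simp only [Finset.mem_image]
    constructor
    · rintro ⟨e, he, rfl⟩
      exact Finset.mem_preimage.1 he
    · intro hv
      obtain ⟨e, rfl⟩ := (Finset.mem_filter.1 hv).2
      exact ⟨e, Finset.mem_preimage.2 hv, rfl⟩
  rw [h5]
  exact Finset.prod_filter_mul_prod_filter_not s (fun v => ∃ e, site e = v) fun v => nu (t v)

end DP
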