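import Pool.Agent.helper76.DP.Spec

/-!
# Project DP (MP_bf63dc_nt), row dp:RGI
-/

set_option autoImplicit false

namespace Pool.Agent.DP

open Finset
open Pool.Agent.FR (mean Eig)

theorem RGI_range (h : ℕ → ℝ) (a b : ℕ) : ∑ k ∈ range (a * b), h k = ∑ i ∈ range b, ∑ s ∈ range a, h (s + a * i) := by
  induction b with
  | zero => simp
  | succ b ih =>
    rw [Nat.mul_succ, Finset.sum_range_add, ih, Finset.sum_range_succ]
    congr 1
    exact Finset.sum_congr rfl fun s _ => by rw [add_comm]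

theorem RGI_mean (n : ℕ) (h : ℕ → ℝ) : (mean fun k : Fin n => h (k : ℕ)) = (∑ k ∈ range n, h k) / n := by
  unfold mean
  rw [Fin.sum_univ_eq_sum_range, Fintype.card_fin]

theorem RGI_Fm (f : ℤ → ℝ) (Q l : ℕ) (x : ℤ) : Fm f Q l x = (∑ k ∈ range l, f (x + (Q : ℤ) * (k : ℤ))) / l := by
  unfold Fm
  exact RGI_mean l (fun k => f (x + (Q : ℤ) * (k : ℤ)))

theorem RGI_en (f : ℤ → ℝ) (η : ℝ) (Q l : ℕ) (y : ℤ) : en f η Q l y = (∑ k ∈ range Q, (Fm f Q l (y + (k : ℤ)) + η * Fm f Q l (y + (k : ℤ)) ^ 2)) / Q := by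
  unfold en
  exact RGI_mean Q (fun k => Fm f Q l (y + (k : ℤ)) + η * Fm f Q l (y + (k : ℤ)) ^ 2)

theorem RGI_M (f : ℤ → ℝ) (Q q l j : ℕ) (x : ℤ) (hq : 1 ≤ q) (hl : 1 ≤ l) (hj : 1 ≤ j) :
    (j : ℝ) * q * Fm f Q (q * l * j) x = ∑ i ∈ range j, ∑ s ∈ range q, Fm f (Q * q) l (x + Q * (s : ℤ) + (Q * q * l : ℕ) * (i : ℤ)) := by
  have hq0 : (q : ℝ) ≠ 0 := by
    have : (0 : ℝ) < q := by exact_mod_cast hq
    exact this.ne'
  have hl0 : (l : ℝ) ≠ 0 := by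
    have : (0 : ℝ) < l := by exact_mod_cast hl
    exact this.ne'
  have hj0 : (j : ℝ) ≠ 0 := by
    have : (0 : ℝ) < j := by exact_mod_cast hj
    exact this.ne'
  rw [RGI_Fm, RGI_range]
  have h1 : ∀ i ∈ range j, (∑ r ∈ range (q * l), f (x + (Q : ℤ) * ((r + q * l * i : ℕ) : ℤ))) = (l : ℝ) * ∑ s ∈ range q, Fm f (Q * q) l (x + Q * (s : ℤ) + (Q * q * l : ℕ) * (i : ℤ)) := by
    intro i _
    rw [RGI_range (fun r => f (x + (Q : ℤ) * ((r + q * l * i : ℕ) : ℤ))) q l, Finset.sum_comm, Finset.mul_sum]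
    refine Finset.sum_congr rfl fun s _ => ?_
    rw [RGI_Fm, mul_div_cancel₀ _ hl0]
    refine Finset.sum_congr rfl fun k _ => ?_
    congr 1
    push_cast
    ring
  rw [Finset.sum_congr rfl h1, ← Finset.mul_sum]
  push_cast
  field_simp

theorem RGI : RGI_stmt := by
  intro f η Q q l j y hQ hq hl hj
  have hQ0 : (Q : ℝ) ≠ 0 := by
    have : (0 : ℝ) < Q := by exact_mod_cast hQ
    exact this.ne'
  have hq0 : (q : ℝ) ≠ 0 := by
    have : (0 : ℝ) < q := by exact_mod_cast hq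
    exact this.ne'
  have hj0 : (j : ℝ) ≠ 0 := by
    have : (0 : ℝ) < j := by exact_mod_cast hj
    exact this.ne'
  obtain ⟨G, hG⟩ : ∃ G : ℕ → ℕ → ℕ → ℝ, ∀ i κ s, G i κ s = Fm f (Q * q) l (y + (κ : ℤ) + Q * (s : ℤ) + (Q * q * l : ℕ) * (i : ℤ)) := ⟨fun i κ s => _, fun _ _ _ => rfl⟩
  obtain ⟨M, hM⟩ : ∃ M : ℕ → ℝ, ∀ κ, M κ = Fm f Q (q * l * j) (y + (κ : ℤ)) := ⟨fun κ => _, fun _ => rfl⟩
  have hMG : ∀ κ, (j : ℝ) * q * M κ = ∑ i ∈ range j, ∑ s ∈ range q, G i κ s := by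
    intro κ
    rw [hM, RGI_M f Q q l j (y + (κ : ℤ)) hq hl hj]
    exact Finset.sum_congr rfl fun i _ => Finset.sum_congr rfl fun s _ => (hG i κ s).symm
  -- the left side
  have hL : (mean fun i : Fin j => en f η (Q * q) l (y + (Q * q * l : ℕ) * ((i : ℕ) : ℤ))) =
      (∑ κ ∈ range Q, ∑ i ∈ range j, ∑ s ∈ range q, (G i κ s + η * G i κ s ^ 2)) / (j * Q * q) := by
    have e1 := RGI_mean j (fun i => en f η (Q * q) l (y + (Q * q * l : ℕ) * (i : ℤ)))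
    rw [e1]
    have e2 : ∀ i ∈ range j, en f η (Q * q) l (y + (Q * q * l : ℕ) * (i : ℤ)) = (∑ s ∈ range q, ∑ κ ∈ range Q, (G i κ s + η * G i κ s ^ 2)) / (Q * q) := by
      intro i _
      rw [RGI_en, RGI_range]
      push_cast
      congr 1
      refine Finset.sum_congr rfl fun s _ => Finset.sum_congr rfl fun κ _ => ?_
      have e3 : Fm f (Q * q) l (y + (Q : ℤ) * q * l * i + ((κ : ℤ) + Q * s)) = G i κ s := by
        rw [hG]
        congr 1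
        push_cast
        ring
      rw [e3]
    rw [Finset.sum_congr rfl e2, ← Finset.sum_div, div_div]
    have e4 : ∑ i ∈ range j, ∑ s ∈ range q, ∑ κ ∈ range Q, (G i κ s + η * G i κ s ^ 2) = ∑ κ ∈ range Q, ∑ i ∈ range j, ∑ s ∈ range q, (G i κ s + η * G i κ s ^ 2) := by
      have e5 : ∀ i ∈ range j, ∑ s ∈ range q, ∑ κ ∈ range Q, (G i κ s + η * G i κ s ^ 2) = ∑ κ ∈ range Q, ∑ s ∈ range q, (G i κ s + η * G i κ s ^ 2) := fun i _ => Finset.sum_comm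
      rw [Finset.sum_congr rfl e5, Finset.sum_comm]
    rw [e4]
    congr 1
    ring
  -- the right side
  have hR : (mean fun z : Fin j × Fin Q × Fin q => (Fm f (Q * q) l (y + ((z.2.1 : ℕ) : ℤ) + Q * ((z.2.2 : ℕ) : ℤ) + (Q * q * l : ℕ) * ((z.1 : ℕ) : ℤ)) - Fm f Q (q * l * j) (y + ((z.2.1 : ℕ) : ℤ))) ^ 2) =
      (∑ κ ∈ range Q, ∑ i ∈ range j, ∑ s ∈ range q, (G i κ s - M κ) ^ 2) / (j * Q * q) := by
    unfold mean
    rw [Fintype.sum_prod_type]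
    have e1 : ∀ i : Fin j, (∑ w : Fin Q × Fin q, (Fm f (Q * q) l (y + ((w.1 : ℕ) : ℤ) + Q * ((w.2 : ℕ) : ℤ) + (Q * q * l : ℕ) * ((i : ℕ) : ℤ)) - Fm f Q (q * l * j) (y + ((w.1 : ℕ) : ℤ))) ^ 2) =
        ∑ κ ∈ range Q, ∑ s ∈ range q, (G i κ s - M κ) ^ 2 := by
      intro i
      rw [Fintype.sum_prod_type, ← Fin.sum_univ_eq_sum_range (fun κ => ∑ s ∈ range q, (G i κ s - M κ) ^ 2) Q]
      refine Finset.sum_congr rfl fun κ _ => ?_
      rw [← Fin.sum_univ_eq_sum_range (fun s => (G i κ s - M κ) ^ 2) q]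
      refine Finset.sum_congr rfl fun s _ => ?_
      rw [hG, hM]
    have e2 : (∑ i : Fin j, ∑ w : Fin Q × Fin q, (Fm f (Q * q) l (y + ((w.1 : ℕ) : ℤ) + Q * ((w.2 : ℕ) : ℤ) + (Q * q * l : ℕ) * ((i : ℕ) : ℤ)) - Fm f Q (q * l * j) (y + ((w.1 : ℕ) : ℤ))) ^ 2) =
        ∑ κ ∈ range Q, ∑ i ∈ range j, ∑ s ∈ range q, (G i κ s - M κ) ^ 2 := by
      rw [Finset.sum_congr rfl fun i _ => e1 i, Fin.sum_univ_eq_sum_range (fun i => ∑ κ ∈ range Q, ∑ s ∈ range q, (G i κ s - M κ) ^ 2) j, Finset.sum_comm]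
    rw [e2]
    congr 1
    simp only [Fintype.card_prod, Fintype.card_fin]
    push_cast
    ring
  rw [hL, hR, RGI_en]
  have hM' : ∀ κ : ℕ, Fm f Q (q * l * j) (y + (κ : ℤ)) = M κ := fun κ => (hM κ).symm
  have e1 : ∀ κ ∈ range Q, ∑ i ∈ range j, ∑ s ∈ range q, (G i κ s + η * G i κ s ^ 2) = j * q * (M κ + η * M κ ^ 2) + η * ∑ i ∈ range j, ∑ s ∈ range q, (G i κ s - M κ) ^ 2 := by
    intro κ _
    have e2 : ∑ i ∈ range j, ∑ s ∈ range q, (G i κ s + η * G i κ s ^ 2) = (∑ i ∈ range j, ∑ s ∈ range q, G i κ s) + η * ∑ i ∈ range j, ∑ s ∈ range q, G i κ s ^ 2 := by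
      simp only [Finset.sum_add_distrib, Finset.mul_sum]
    have e3 : ∑ i ∈ range j, ∑ s ∈ range q, (G i κ s - M κ) ^ 2 = (∑ i ∈ range j, ∑ s ∈ range q, G i κ s ^ 2) - 2 * M κ * (∑ i ∈ range j, ∑ s ∈ range q, G i κ s) + j * q * M κ ^ 2 := by
      have e4 : ∀ i ∈ range j, ∑ s ∈ range q, (G i κ s - M κ) ^ 2 = (∑ s ∈ range q, G i κ s ^ 2) - 2 * M κ * (∑ s ∈ range q, G i κ s) + q * M κ ^ 2 := by
        intro i _
        have e5 : ∀ s ∈ range q, (G i κ s - M κ) ^ 2 = G i κ s ^ 2 - 2 * M κ * G i κ s + M κ ^ 2 := fun s _ => by ring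
        rw [Finset.sum_congr rfl e5, Finset.sum_add_distrib, Finset.sum_sub_distrib, ← Finset.mul_sum, Finset.sum_const, Finset.card_range, nsmul_eq_mul]
      rw [Finset.sum_congr rfl e4, Finset.sum_add_distrib, Finset.sum_sub_distrib, ← Finset.mul_sum, Finset.sum_const, Finset.card_range, nsmul_eq_mul]
      ring
    rw [e2, e3, ← hMG κ]
    ring
  rw [Finset.sum_congr rfl e1, Finset.sum_add_distrib, ← Finset.mul_sum, ← Finset.mul_sum]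
  simp only [hM']
  generalize (∑ κ ∈ range Q, (M κ + η * M κ ^ 2)) = S1
  generalize (∑ κ ∈ range Q, ∑ i ∈ range j, ∑ s ∈ range q, (G i κ s - M κ) ^ 2) = S2
  field_simp

end Pool.Agent.DP
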