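import Pool.Agent.helper61.DP.SpecC

/-!
# RQ0: squares are crossed with probability at least one half (project dp)
-/

namespace DP

open MeasureTheory

theorem RQ0_prob : IsProbabilityMeasure P1 := by
  unfold P1
  infer_instance

theorem RQ0 (hHX : HX_stmt) (hRSX : RSX_stmt) (hRQD : RQD_stmt) : RQ0_stmt := by
  intro n
  haveI := RQ0_prob
  have hn : (0 : ℤ) ≤ 2 * n := by positivity
  obtain ⟨-, h2, h3⟩ := hRSX
  -- the two events cover everything
  have hcov : (Ev fun c => hcross c true 0 (2 * n) 0 (2 * n)) ∪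
      (Ev fun c => vcross c false 0 (2 * n) 0 (2 * n)) = Set.univ := by
    ext b
    simp only [Set.mem_union, Set.mem_univ, iff_true]
    rcases hHX (col b) true 0 (2 * n) 0 (2 * n) hn hn with h | h
    · exact Or.inl h
    · exact Or.inr h
  have h4 : (1 : ℝ) ≤ ph true 0 (2 * n) 0 (2 * n) + pv false 0 (2 * n) 0 (2 * n) := by
    have h5 : P1.real Set.univ ≤ P1.real (Ev fun c => hcross c true 0 (2 * n) 0 (2 * n)) +
        P1.real (Ev fun c => vcross c false 0 (2 * n) 0 (2 * n)) := by
      rw [← hcov]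
      exact measureReal_union_le _ _
    rw [probReal_univ] at h5
    exact h5
  have h6 : pv false 0 (2 * n) 0 (2 * n) = ph false 0 (2 * n) 0 (2 * n) :=
    h2 false 0 (2 * n) 0 (2 * n)
  have h7 : ph false 0 (2 * n) 0 (2 * n) = ph true (-1) (2 * n - 1) (-1) (2 * n - 1) := by
    have h8 := (h3 true (-1) (2 * n - 1) (-1) (2 * n - 1)).1
    simpa using h8
  have h9 : ph true (-1) (2 * n - 1) (-1) (2 * n - 1) ≤ ph true 0 (2 * n) 0 (2 * n) := by
    refine measureReal_mono (μ := P1) ?_
    intro b hb
    exact hRQD b n hb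
  linarith

end DP
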