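import Pool.Agent.helper61.DP.SpecC

/-!
# RR1: the revealed set is determined by the colours of its sites (project dp)
-/

namespace DP

theorem RR1_mem_rect {c : V → Bool} {a h : ℤ} {v : V} (hv : v ∈ WL c a h) : v ∈ rect 0 a 0 h := by
  obtain ⟨u, -, h1⟩ := hv
  exact h1.mem_right

theorem RR1_sub {c : V → Bool} {a h : ℤ} {v : V} (hv : v ∈ WL c a h) : v ∈ RV c a h :=
  ⟨RR1_mem_rect hv, Or.inr (Or.inl hv)⟩

theorem RR1_WL (c c' : V → Bool) (a h : ℤ) (hag : ∀ v ∈ RV c a h, c v = c' v) :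
    WL c' a h = WL c a h := by
  apply Set.Subset.antisymm
  · rintro v ⟨u, hu, hv⟩
    refine ⟨u, hu, ?_⟩
    have hur : u ∈ rect 0 a 0 h := hv.mem_left
    have hcu : c' u = false := hv.colour_left
    refine Con.induct' hv (fun z => Conn c false (rect 0 a 0 h) u z) ?_ ?_
    · have h1 : c u = c' u := hag u ⟨hur, Or.inl hu⟩
      exact Con.refl ⟨hur, h1.trans hcu⟩
    · intro x y _ hy hxy hP
      have hxW : x ∈ WL c a h := ⟨u, hu, hP⟩
      have h1 : c y = c' y := hag y ⟨hy.1, Or.inr (Or.inr ⟨x, hxW, hxy⟩)⟩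
      exact Con.step hP hxy ⟨hy.1, h1.trans hy.2⟩
  · rintro v ⟨u, hu, hv⟩
    refine ⟨u, hu, ?_⟩
    refine Con.mono ?_ (Con.cluster hv)
    intro z hz
    have hz1 : z ∈ WL c a h := ⟨u, hu, hz⟩
    have hz2 : c z = c' z := hag z (RR1_sub hz1)
    have hz3 : z ∈ rect 0 a 0 h ∧ c z = false := Con.mem_right hz
    exact ⟨hz3.1, hz2.symm.trans hz3.2⟩

theorem RR1 : RR1_stmt := by
  intro c c' a h _ _ hag
  unfold RV
  rw [RR1_WL c c' a h hag]

end DP
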